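import Mathlib
import Pool.Agent.H645.Defs2
import Pool.Agent.H645.TG
import Pool.Agent.H645.TH
import Pool.Agent.H645.PD
import Pool.Agent.H645.NegG

set_option autoImplicit false

/-!
# Determination of the good cardinals under GCH, and models
-/

namespace Pool.Agent.Results.MP_33d970_lc.Determination

open Cardinal Pool.Agent.H645.Q
open Pool.Agent.H645.T (Good Bad AP good_iff good_fin_iff)
open Pool.Agent.H645 (lamOf IsNormalMeasure)

/-- Assume GCH.
(0) Let `lam` be finite, `κ` infinite and `κ < ι`. Then `ι` is good for `(κ, lam)` if and only if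
`lam ≤ 1`.
(1) Let `lam < κ` be infinite. A cardinal `ι` is good for `(κ, lam)` if and only if the principle
`Bad η lam` fails for every cardinal `η > lam` with the cofinality of `lam` and `κ ≤ η⁺ ≤ ι`.
(2) `Bad η lam` fails if the set of the points of cofinality `lam⁺` below `η⁺` is in the
approachability ideal.
(3) For every regular `lam` there is a forcing notion all of whose conditions force: GCH holds,
`lam` is regular, and for every `κ > lam` every `ι` is good for `(κ, lam)`.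
(4) If there is a normal measure on `P_κ(κ^{+ω+1})` for some uncountable `κ`, then there is a
forcing notion all of whose conditions force: GCH holds, and for every uncountable cardinal
`κ' ≤ ℵ_{ω+1}`, no `ι ≥ ℵ_{ω+1}` is good for `(κ', ℵ₀)`. -/
theorem result (hGCH : ∀ ν : Cardinal.{0}, ℵ₀ ≤ ν → 2 ^ ν = Order.succ ν) :
    (∀ lam κ ι : Cardinal.{0}, lam < ℵ₀ → ℵ₀ ≤ κ → κ < ι → (Good ι κ lam ↔ lam ≤ 1)) ∧
    (∀ lam κ ι : Cardinal.{0}, ℵ₀ ≤ lam → lam < κ → (Good ι κ lam ↔
      ∀ η : Cardinal.{0}, lam < η → η.ord.cof = lam.ord.cof → κ ≤ Order.succ η →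
        Order.succ η ≤ ι → ¬ Bad η lam)) ∧
    (∀ lam η : Cardinal.{0}, ℵ₀ ≤ lam → lam < η → AP η lam → ¬ Bad η lam) ∧
    (∀ lam : Cardinal.{0}, lam.IsRegular → ∃ (P : Type) (_ : Preorder P), Nonempty P ∧ ∀ p : P,
      p ∈ ForcesGCH P ∧ p ∈ StaysRegular P lam ∧ p ∈ AllGood P lam) ∧
    ∀ κ : Cardinal.{0}, ℵ₀ < κ →
      (∃ W : Ultrafilter (Set (Order.succ (lamOf κ)).ord.ToType),
        IsNormalMeasure κ (Order.succ (lamOf κ)).ord.ToType W) →
      ∃ (P : Type) (_ : Preorder P), Nonempty P ∧ ∃ c : Cardinal.{0}, ∀ p : P,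
        p ∈ ForcesGCH P ∧ p ∈ IsAlephOmegaSucc P c ∧ p ∈ ManyBad P c :=
  ⟨fun _ κ _ hl hκ hκι => good_fin_iff hκ (hGCH κ hκ) hκι hl,
    fun _ _ ι hl hlk => good_iff hGCH hl hlk ι, fun _ _ hl h1 h2 => h2.not_bad hGCH hl h1,
    fun _ hlam => Pool.Agent.H645.N.positive_all hGCH hlam,
    fun _ hκ ⟨_, hW⟩ => Pool.Agent.H645.NG.negative_all hGCH hκ hW⟩

end Pool.Agent.Results.MP_33d970_lc.Determination
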